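import Pool.Agent.helper57.DH.SpecL

/-!
# Project d2: (MP_5823cb_al), module LUN (helper74): from small sub-cells to neighbourhoods of the cells
-/

set_option autoImplicit false

open Filter Topology MeasureTheory
open scoped commutatorElement

namespace Pool.Agent.helper90.DH

open Pool.Agent.helper64.D2

theorem LUN_cell (s : ℕ) (k : ℤ) (x : ℝ) : x ∈ cell s k ↔ (k : ℝ) ≤ 2 ^ s * x ∧ 2 ^ s * x < (k : ℝ) + 1 := by
  have h2 : (0 : ℝ) < 2 ^ s := by positivity
  unfold cell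
  rw [Set.mem_Ico, div_le_iff₀ h2, lt_div_iff₀ h2, mul_comm x]

theorem LUN_self (s : ℕ) (x : ℝ) : x ∈ cell s (ci s x) := by
  rw [LUN_cell]
  unfold ci
  exact ⟨Int.floor_le _, Int.lt_floor_add_one _⟩

theorem LUN_ci (s : ℕ) (k : ℤ) (x : ℝ) (h : x ∈ cell s k) : ci s x = k := by
  rw [LUN_cell] at h
  unfold ci
  exact Int.floor_eq_iff.2 h

theorem LUN_nest (s e : ℕ) (k : ℤ) (x : ℝ) (h : x ∈ cell s k) : cell (s + e) (ci (s + e) x) ⊆ cell s k := by
  intro y hy
  have hx := LUN_self (s + e) x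
  rw [LUN_cell] at h hy hx ⊢
  set j : ℤ := ci (s + e) x with hj
  have hpe : (0 : ℝ) < 2 ^ e := by positivity
  have hsplit : ∀ u : ℝ, (2 : ℝ) ^ (s + e) * u = 2 ^ e * (2 ^ s * u) := by
    intro u
    rw [pow_add]
    ring
  rw [hsplit] at hy hx
  have h1 : (2 : ℤ) ^ e * k ≤ j := by
    have h2 : ((2 : ℤ) ^ e * k : ℤ) < j + 1 := by
      have h3 : ((((2 : ℤ) ^ e * k : ℤ)) : ℝ) < ((j + 1 : ℤ) : ℝ) := by
        push_cast
        have h4 : (2 : ℝ) ^ e * k ≤ 2 ^ e * (2 ^ s * x) := mul_le_mul_of_nonneg_left h.1 hpe.le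
        linarith [hx.2]
      exact_mod_cast h3
    omega
  have h2 : j + 1 ≤ (2 : ℤ) ^ e * (k + 1) := by
    have h3 : (j : ℤ) < (2 : ℤ) ^ e * (k + 1) := by
      have h4 : ((j : ℤ) : ℝ) < ((((2 : ℤ) ^ e * (k + 1) : ℤ)) : ℝ) := by
        push_cast
        have h5 : (2 : ℝ) ^ e * (2 ^ s * x) < 2 ^ e * (k + 1) := mul_lt_mul_of_pos_left h.2 hpe
        linarith [hx.1]
      exact_mod_cast h4
    omega
  have h1' : (2 : ℝ) ^ e * k ≤ j := by exact_mod_cast h1
  have h2' : (j : ℝ) + 1 ≤ 2 ^ e * (k + 1) := by exact_mod_cast h2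
  constructor
  · have h3 : (2 : ℝ) ^ e * k ≤ 2 ^ e * (2 ^ s * y) := h1'.trans hy.1
    exact le_of_mul_le_mul_left h3 hpe
  · have h3 : (2 : ℝ) ^ e * (2 ^ s * y) < 2 ^ e * (k + 1) := hy.2.trans_le h2'
    exact lt_of_mul_lt_mul_left h3 hpe.le

theorem LUN_vol (s : ℕ) (k : ℤ) : volume.real (cell s k) = 1 / 2 ^ s := by
  have h2 : (0 : ℝ) < 2 ^ s := by positivity
  unfold cell
  rw [Real.volume_real_Ico_of_le (by apply div_le_div_of_nonneg_right _ h2.le; linarith), ← sub_div]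
  congr 1
  ring

theorem LUN (hLDM : LDM_stmt) (hLEL : LEL_stmt) : LUN_stmt := by
  intro r s0 N e G A hr hGm hG hA
  classical
  -- the restricted family
  set A' : ℕ → Set ℤ := fun s => if s0 ≤ s ∧ s < N then A s else ∅ with hA'
  have hA's : ∀ s, ∀ k ∈ A' s, s0 ≤ s ∧ s < N ∧ k ∈ A s := by
    intro s k hk
    simp only [hA'] at hk
    split_ifs at hk with h
    · exact ⟨h.1, h.2, hk⟩
    · exact absurd hk (Set.notMem_empty _)
  have hU : (⋃ s ∈ Set.Ico s0 N, Nb r s (A s)) = ⋃ s ∈ Set.Ico s0 N, Nb r s (A' s) := by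
    apply Set.iUnion₂_congr
    intro s hs
    have : A' s = A s := by
      simp only [hA']
      rw [if_pos ⟨hs.1, hs.2⟩]
    rw [this]
  have hrange : ∀ s, ∀ k ∈ A' s, 0 ≤ k ∧ k < 2 ^ s := by
    intro s k hk
    obtain ⟨h1, h2, h3⟩ := hA's s k hk
    obtain ⟨x, hx, hc⟩ := hA s h1 h2 k h3
    have hself := LUN_self (s + e) x
    have hx01 := hG (hc hself)
    have hx1 : x < 1 := by
      by_contra hcon
      rw [not_lt] at hcon
      have hp : (0 : ℝ) < 2 ^ (s + e) := by positivity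
      set y : ℝ := (x + ((ci (s + e) x : ℤ) + 1 : ℝ) / 2 ^ (s + e)) / 2 with hy
      have h4 : x < ((ci (s + e) x : ℤ) + 1 : ℝ) / 2 ^ (s + e) := by
        rw [lt_div_iff₀ hp, mul_comm]
        exact ((LUN_cell _ _ _).1 hself).2
      have h5 : y ∈ cell (s + e) (ci (s + e) x) := by
        constructor
        · have h6 := hself.1
          linarith
        · linarith
      have h6 := (hG (hc h5)).2
      linarith
    rw [LUN_cell] at hx
    have hp : (0 : ℝ) < 2 ^ s := by positivity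
    constructor
    · have h4 : (0 : ℝ) ≤ 2 ^ s * x := mul_nonneg hp.le hx01.1
      have h5 : (-1 : ℝ) < k := by linarith [hx.2]
      have h6 : (-1 : ℤ) < k := by exact_mod_cast h5
      omega
    · have h4 : (2 : ℝ) ^ s * x < 2 ^ s := by
        calc (2 : ℝ) ^ s * x < 2 ^ s * 1 := mul_lt_mul_of_pos_left hx1 hp
          _ = 2 ^ s := mul_one _
      have h5 : (k : ℝ) < 2 ^ s := hx.1.trans_lt h4
      exact_mod_cast h5
  rw [hU]
  refine (hLEL r s0 N A' hr hrange).trans ?_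
  -- the maximal function
  set h : ℝ → ℝ := G.indicator 1 with hh
  have hBM : BM h := by
    refine ⟨measurable_const.indicator hGm, ⟨1, fun x => ?_⟩, fun x hx => ?_⟩
    · by_cases hx : x ∈ G
      · rw [hh, Set.indicator_of_mem hx]
        simp
      · rw [hh, Set.indicator_of_notMem hx]
        simp
    · exact Set.indicator_of_notMem (fun h' => hx (hG h')) _
  have hh0 : ∀ x, 0 ≤ h x := fun x => Set.indicator_nonneg (fun _ _ => zero_le_one) x
  have hμ : (0 : ℝ) < 1 / 2 ^ (e + 1) := by positivity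
  have hmax := hLDM h (1 / 2 ^ (e + 1)) s0 N hBM hh0 hμ
  have hint : ∫ x, h x = volume.real G := integral_indicator_one hGm
  rw [hint, one_div_one_div] at hmax
  set M : Set ℝ := {x | ∃ s : ℕ, s0 ≤ s ∧ s ≤ N ∧ 1 / 2 ^ (e + 1) < 2 ^ s * ∫ t in cell s (ci s x), h t} with hM
  have hcellint : ∀ (s : ℕ) (k : ℤ), ∫ t in cell s k, h t = volume.real (cell s k ∩ G) := by
    intro s k
    rw [hh, setIntegral_indicator hGm]
    simp
  have hMb : M ⊆ Set.Icc (-1) 2 := by
    rintro x ⟨s, -, -, hx⟩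
    have h1 : (cell s (ci s x) ∩ G).Nonempty := by
      by_contra hcon
      rw [Set.not_nonempty_iff_eq_empty] at hcon
      rw [hcellint, hcon] at hx
      simp only [measureReal_empty, mul_zero] at hx
      linarith
    obtain ⟨t, ht, htG⟩ := h1
    have ht01 := hG htG
    have hself := LUN_self s x
    have hp : (1 : ℝ) ≤ 2 ^ s := one_le_pow₀ (by norm_num)
    rw [LUN_cell] at ht hself
    have h3 : |2 ^ s * x - 2 ^ s * t| ≤ 1 := by
      rw [abs_le]
      constructor <;> linarith [ht.1, ht.2, hself.1, hself.2]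
    rw [← mul_sub, abs_mul, abs_of_pos (by linarith : (0 : ℝ) < 2 ^ s)] at h3
    have h4 : |x - t| ≤ 1 := by
      have h5 : 0 ≤ |x - t| := abs_nonneg _
      nlinarith
    rw [abs_le] at h4
    exact ⟨by linarith [ht01.1, h4.1], by linarith [ht01.2, h4.2]⟩
  have hMfin : volume M ≠ ⊤ := ((measure_mono hMb).trans_lt (by rw [Real.volume_Icc]; exact ENNReal.ofReal_lt_top)).ne
  have hsub : (⋃ s ∈ Set.Ico s0 N, ⋃ k ∈ A' s, cell s k) ⊆ M := by
    intro y hy
    simp only [Set.mem_iUnion] at hy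
    obtain ⟨s, hs, k, hk, hyk⟩ := hy
    obtain ⟨h1, h2, h3⟩ := hA's s k hk
    obtain ⟨x, hx, hc⟩ := hA s h1 h2 k h3
    refine ⟨s, h1, h2.le, ?_⟩
    rw [LUN_ci s k y hyk, hcellint]
    have h4 : cell (s + e) (ci (s + e) x) ⊆ cell s k ∩ G := Set.subset_inter (LUN_nest s e k x hx) hc
    have h6 : volume (cell s k ∩ G) ≤ volume (cell s k) := measure_mono Set.inter_subset_left
    have h7 : volume (cell s k) < ⊤ := by
      unfold cell
      rw [Real.volume_Ico]
      exact ENNReal.ofReal_lt_top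
    have h5 : volume.real (cell (s + e) (ci (s + e) x)) ≤ volume.real (cell s k ∩ G) :=
      measureReal_mono h4 (h6.trans_lt h7).ne
    rw [LUN_vol] at h5
    have hp : (0 : ℝ) < 2 ^ s := by positivity
    calc (1 : ℝ) / 2 ^ (e + 1) < 1 / 2 ^ e := by
          apply one_div_lt_one_div_of_lt (by positivity)
          exact pow_lt_pow_right₀ (by norm_num) (by omega)
      _ = 2 ^ s * (1 / 2 ^ (s + e)) := by
          rw [pow_add]
          field_simp
      _ ≤ 2 ^ s * volume.real (cell s k ∩ G) := mul_le_mul_of_nonneg_left h5 hp.le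
  have hfinal : volume.real (⋃ s ∈ Set.Ico s0 N, ⋃ k ∈ A' s, cell s k) ≤ 2 ^ (e + 1) * volume.real G :=
    (measureReal_mono hsub hMfin).trans hmax
  calc (2 * r + 1) * volume.real (⋃ s ∈ Set.Ico s0 N, ⋃ k ∈ A' s, cell s k)
      ≤ (2 * r + 1) * (2 ^ (e + 1) * volume.real G) := mul_le_mul_of_nonneg_left hfinal (by linarith)
    _ = (2 * r + 1) * 2 ^ (e + 1) * volume.real G := by ring

end Pool.Agent.helper90.DH
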