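import Pool.Agent.helper57.DH.SpecL

/-!
# Project d2: (MP_5823cb_al), module LYN (helper74): Schur's test
-/

set_option autoImplicit false

open Filter Topology MeasureTheory
open scoped commutatorElement

namespace Pool.Agent.helper90.DH

open Pool.Agent.helper64.D2

theorem LYN_sum (w : ℕ → ℝ) (W : ℝ) (J : Finset ℕ) (hw : ∀ k, 0 ≤ w k) (hW : ∀ n, ∑ k ∈ Finset.range n, w k ≤ W) (s : ℕ) :
    ∑ r ∈ J, w ((s - r) + (r - s)) ≤ 2 * W := by
  rw [← Finset.sum_filter_add_sum_filter_not J (fun r => r ≤ s)]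
  have h1 : ∑ r ∈ J.filter (fun r => r ≤ s), w ((s - r) + (r - s)) ≤ W := by
    have e1 : ∑ r ∈ J.filter (fun r => r ≤ s), w ((s - r) + (r - s)) = ∑ k ∈ (J.filter (fun r => r ≤ s)).image (fun r => s - r), w k := by
      rw [Finset.sum_image]
      · apply Finset.sum_congr rfl
        intro r hr
        have h2 := (Finset.mem_filter.1 hr).2
        congr 1
        omega
      · intro r hr r' hr' h
        have h2 := (Finset.mem_filter.1 hr).2
        have h3 := (Finset.mem_filter.1 hr').2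
        simp only at h
        omega
    rw [e1]
    refine le_trans (Finset.sum_le_sum_of_subset_of_nonneg ?_ (fun k _ _ => hw k)) (hW (s + 1))
    intro k hk
    obtain ⟨r, _, rfl⟩ := Finset.mem_image.1 hk
    rw [Finset.mem_range]
    omega
  have h2 : ∑ r ∈ J.filter (fun r => ¬ r ≤ s), w ((s - r) + (r - s)) ≤ W := by
    have e1 : ∑ r ∈ J.filter (fun r => ¬ r ≤ s), w ((s - r) + (r - s)) = ∑ k ∈ (J.filter (fun r => ¬ r ≤ s)).image (fun r => r - s), w k := by
      rw [Finset.sum_image]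
      · apply Finset.sum_congr rfl
        intro r hr
        have h2 := (Finset.mem_filter.1 hr).2
        congr 1
        omega
      · intro r hr r' hr' h
        have h2 := (Finset.mem_filter.1 hr).2
        have h3 := (Finset.mem_filter.1 hr').2
        simp only at h
        omega
    rw [e1]
    refine le_trans (Finset.sum_le_sum_of_subset_of_nonneg ?_ (fun k _ _ => hw k)) (hW (J.sup id + 1))
    intro k hk
    obtain ⟨r, hr, rfl⟩ := Finset.mem_image.1 hk
    have h3 : id r ≤ J.sup id := Finset.le_sup (Finset.mem_filter.1 hr).1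
    rw [Finset.mem_range]
    simp only [id] at h3
    omega
  linarith

theorem LYN : LYN_stmt := by
  intro w a W I I' hw ha hW
  have hW0 : 0 ≤ W := by simpa using hW 0
  have hsym : ∀ s r : ℕ, (s - r) + (r - s) = (r - s) + (s - r) := fun s r => by omega
  constructor
  · have h1 : ∀ s ∈ I, (∑ r ∈ I', w ((s - r) + (r - s)) * a r) ^ 2 ≤ 2 * W * ∑ r ∈ I', w ((s - r) + (r - s)) * a r ^ 2 := by
      intro s _
      have h2 := Finset.sum_mul_sq_le_sq_mul_sq I' (fun r => √(w ((s - r) + (r - s)))) (fun r => √(w ((s - r) + (r - s))) * a r)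
      have e1 : ∑ r ∈ I', √(w ((s - r) + (r - s))) * (√(w ((s - r) + (r - s))) * a r) = ∑ r ∈ I', w ((s - r) + (r - s)) * a r := by
        apply Finset.sum_congr rfl
        intro r _
        rw [← mul_assoc, Real.mul_self_sqrt (hw _)]
      have e2 : ∑ r ∈ I', √(w ((s - r) + (r - s))) ^ 2 = ∑ r ∈ I', w ((s - r) + (r - s)) := by
        apply Finset.sum_congr rfl
        intro r _
        rw [Real.sq_sqrt (hw _)]
      have e3 : ∑ r ∈ I', (√(w ((s - r) + (r - s))) * a r) ^ 2 = ∑ r ∈ I', w ((s - r) + (r - s)) * a r ^ 2 := by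
        apply Finset.sum_congr rfl
        intro r _
        rw [mul_pow, Real.sq_sqrt (hw _)]
      rw [e1, e2, e3] at h2
      refine h2.trans (mul_le_mul_of_nonneg_right (LYN_sum w W I' hw hW s) ?_)
      exact Finset.sum_nonneg fun r _ => mul_nonneg (hw _) (sq_nonneg _)
    refine (Finset.sum_le_sum h1).trans ?_
    rw [← Finset.mul_sum, Finset.sum_comm]
    have h3 : ∀ r ∈ I', ∑ s ∈ I, w ((s - r) + (r - s)) * a r ^ 2 ≤ 2 * W * a r ^ 2 := by
      intro r _
      rw [← Finset.sum_mul]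
      apply mul_le_mul_of_nonneg_right _ (sq_nonneg _)
      have h4 := LYN_sum w W I hw hW r
      calc ∑ s ∈ I, w ((s - r) + (r - s)) = ∑ s ∈ I, w ((r - s) + (s - r)) := by
            apply Finset.sum_congr rfl
            intro s _
            rw [hsym]
        _ ≤ 2 * W := h4
    calc 2 * W * ∑ r ∈ I', ∑ s ∈ I, w ((s - r) + (r - s)) * a r ^ 2
        ≤ 2 * W * ∑ r ∈ I', 2 * W * a r ^ 2 := mul_le_mul_of_nonneg_left (Finset.sum_le_sum h3) (by positivity)
      _ = (2 * W) ^ 2 * ∑ r ∈ I', a r ^ 2 := by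
        rw [← Finset.mul_sum]
        ring
  · have h1 : ∀ s ∈ I, ∀ r ∈ I, w ((s - r) + (r - s)) * (a s * a r) ≤
        w ((s - r) + (r - s)) * (a s ^ 2 / 2) + w ((s - r) + (r - s)) * (a r ^ 2 / 2) := by
      intro s _ r _
      rw [← mul_add]
      apply mul_le_mul_of_nonneg_left _ (hw _)
      nlinarith [sq_nonneg (a s - a r)]
    have h2 : ∑ s ∈ I, ∑ r ∈ I, w ((s - r) + (r - s)) * (a s * a r) ≤
        ∑ s ∈ I, ∑ r ∈ I, w ((s - r) + (r - s)) * (a s ^ 2 / 2) + ∑ s ∈ I, ∑ r ∈ I, w ((s - r) + (r - s)) * (a r ^ 2 / 2) := by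
      rw [← Finset.sum_add_distrib]
      apply Finset.sum_le_sum
      intro s hs
      rw [← Finset.sum_add_distrib]
      exact Finset.sum_le_sum fun r hr => h1 s hs r hr
    have h3 : ∑ s ∈ I, ∑ r ∈ I, w ((s - r) + (r - s)) * (a s ^ 2 / 2) ≤ ∑ s ∈ I, 2 * W * (a s ^ 2 / 2) := by
      apply Finset.sum_le_sum
      intro s _
      rw [← Finset.sum_mul]
      exact mul_le_mul_of_nonneg_right (LYN_sum w W I hw hW s) (by positivity)
    have h4 : ∑ s ∈ I, ∑ r ∈ I, w ((s - r) + (r - s)) * (a r ^ 2 / 2) ≤ ∑ r ∈ I, 2 * W * (a r ^ 2 / 2) := by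
      rw [Finset.sum_comm]
      apply Finset.sum_le_sum
      intro r _
      rw [← Finset.sum_mul]
      apply mul_le_mul_of_nonneg_right _ (by positivity)
      calc ∑ s ∈ I, w ((s - r) + (r - s)) = ∑ s ∈ I, w ((r - s) + (s - r)) := by
            apply Finset.sum_congr rfl
            intro s _
            rw [hsym]
        _ ≤ 2 * W := LYN_sum w W I hw hW r
    refine h2.trans ((add_le_add h3 h4).trans (le_of_eq ?_))
    rw [← Finset.sum_add_distrib, Finset.mul_sum]
    apply Finset.sum_congr rfl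
    intro r _
    ring

end Pool.Agent.helper90.DH
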