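import Pool.Agent.helper81.DH.SpecZ

/-!
# Project d2: (MP_5823cb_al), module ZLP (helper74): the low part
-/

set_option autoImplicit false

open Filter Topology
open scoped commutatorElement
open Pool.Agent.helper64.D2

namespace M5Z

theorem ZLP_pow (m : ℕ) (hm : 6 ≤ m) : 400 * (m + 1) ≤ 4 ^ m := by
  induction m, hm using Nat.le_induction with
  | base => norm_num
  | succ m hm ih =>
    rw [pow_succ]
    omega

theorem ZLP_sn (n : ℕ) (hn : 2400 ≤ n) : n ≤ sn n := by
  have h1 : 6 ≤ n / 400 := by omega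
  have h2 := ZLP_pow (n / 400) h1
  have h3 : sn n = 4 ^ (n / 400) := by
    unfold sn rn
    rw [← pow_mul, mul_comm, pow_mul]
    norm_num
  rw [h3]
  omega

/-- a function with second derivative at most `a` differs from its average over `[y-r,y+r]` by at most `a r^2`. -/
theorem ZLP_avg (X : ℝ → ℝ) (a r : ℝ) (hX : ContDiff ℝ 2 X) (ha : ∀ x, |d2 X x| ≤ a) (hr : 0 < r) (y : ℝ) :
    |X y - av X (-r) r y| ≤ a * r ^ 2 := by
  have ha0 : 0 ≤ a := (abs_nonneg _).trans (ha 0)
  have hcd1 : ContDiff ℝ 1 (deriv X) := by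
    have h2 : ContDiff ℝ (1 + 1) X := by
      norm_num
      exact hX
    exact (contDiff_succ_iff_deriv.1 h2).2.2
  have hdX : Differentiable ℝ X := hX.differentiable (by norm_num)
  have hd1 : Differentiable ℝ (deriv X) := hcd1.differentiable (by norm_num)
  -- `X'` is Lipschitz
  have hlip : ∀ u v : ℝ, |deriv X u - deriv X v| ≤ a * |u - v| := by
    intro u v
    have := Convex.norm_image_sub_le_of_norm_deriv_le (f := deriv X) (s := Set.univ) (C := a) (x := v) (y := u)
      (fun x _ => hd1 x) (fun x _ => ha x) convex_univ (Set.mem_univ _) (Set.mem_univ _)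
    simpa [Real.norm_eq_abs] using this
  -- second differences
  have hpsi : ∀ s : ℝ, 0 ≤ s → |X (y + s) + X (y - s) - 2 * X y| ≤ 2 * a * s ^ 2 := by
    intro s hs
    have hder : ∀ t : ℝ, HasDerivAt (fun t => X (y + t) + X (y - t) - 2 * X y) (deriv X (y + t) - deriv X (y - t)) t := by
      intro t
      have h1 : HasDerivAt (fun t => X (y + t)) (deriv X (y + t)) t := by
        have := (hdX (y + t)).hasDerivAt.comp_const_add y t
        simpa using this
      have h2 : HasDerivAt (fun t => X (y - t)) (-deriv X (y - t)) t := by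
        have := (hdX (y - t)).hasDerivAt.comp_const_sub y t
        simpa using this
      have h3 := (h1.add h2).sub_const (2 * X y)
      rw [sub_eq_add_neg (deriv X (y + t))]
      exact h3
    have h4 := (convex_Icc (0 : ℝ) s).norm_image_sub_le_of_norm_hasDerivWithin_le (f := fun t => X (y + t) + X (y - t) - 2 * X y)
      (f' := fun t => deriv X (y + t) - deriv X (y - t)) (C := 2 * a * s) (x := 0) (y := s)
      (fun t _ => (hder t).hasDerivWithinAt) (fun t ht => by
        rw [Real.norm_eq_abs]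
        refine (hlip _ _).trans ?_
        have h5 : |y + t - (y - t)| = 2 * t := by
          rw [show y + t - (y - t) = 2 * t by ring, abs_of_nonneg (by linarith [ht.1])]
        rw [h5]
        nlinarith [ht.2, ht.1]) (Set.left_mem_Icc.2 hs) (Set.right_mem_Icc.2 hs)
    simp only [Real.norm_eq_abs, add_zero, sub_zero] at h4
    rw [show X y + X y - 2 * X y = 0 by ring, sub_zero, abs_of_nonneg hs] at h4
    calc |X (y + s) + X (y - s) - 2 * X y| ≤ 2 * a * s * s := h4
      _ = 2 * a * s ^ 2 := by ring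
  -- the integral
  set F : ℝ → ℝ := fun u => ∫ t in y..u, X t with hF
  have hFd : ∀ u, HasDerivAt F (X u) u := by
    intro u
    exact intervalIntegral.integral_hasDerivAt_right (hX.continuous.intervalIntegrable _ _)
      (hX.continuous.stronglyMeasurableAtFilter _ _) hX.continuous.continuousAt
  have hphi : ∀ s : ℝ, HasDerivAt (fun s => F (y + s) - F (y - s) - 2 * s * X y) (X (y + s) + X (y - s) - 2 * X y) s := by
    intro s
    have h1 : HasDerivAt (fun t => F (y + t)) (X (y + s)) s := by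
      have := (hFd (y + s)).comp_const_add y s
      simpa using this
    have h2 : HasDerivAt (fun t => F (y - t)) (-X (y - s)) s := by
      have := (hFd (y - s)).comp_const_sub y s
      simpa using this
    have h3 : HasDerivAt (fun t : ℝ => 2 * t * X y) (2 * X y) s := by
      have := ((hasDerivAt_id s).const_mul 2).mul_const (X y)
      simpa using this
    have h4 := (h1.sub h2).sub h3
    have e : X (y + s) + X (y - s) - 2 * X y = X (y + s) - -X (y - s) - 2 * X y := by ring
    rw [e]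
    exact h4
  have h6 := (convex_Icc (0 : ℝ) r).norm_image_sub_le_of_norm_hasDerivWithin_le (f := fun s => F (y + s) - F (y - s) - 2 * s * X y)
      (f' := fun s => X (y + s) + X (y - s) - 2 * X y) (C := 2 * a * r ^ 2) (x := 0) (y := r)
      (fun t _ => (hphi t).hasDerivWithinAt) (fun t ht => by
        rw [Real.norm_eq_abs]
        refine (hpsi t ht.1).trans ?_
        have h7 : t ^ 2 ≤ r ^ 2 := pow_le_pow_left₀ ht.1 ht.2 2
        nlinarith) (Set.left_mem_Icc.2 hr.le) (Set.right_mem_Icc.2 hr.le)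
  have h8 : F (y + r) - F (y - r) = ∫ t in (y + -r)..(y + r), X t := by
    simp only [hF]
    rw [← sub_eq_add_neg y r]
    exact intervalIntegral.integral_interval_sub_left (hX.continuous.intervalIntegrable _ _) (hX.continuous.intervalIntegrable _ _)
  simp only [Real.norm_eq_abs, add_zero, sub_zero, mul_zero, zero_mul, sub_self] at h6
  rw [h8, abs_of_nonneg hr.le] at h6
  unfold av
  have h9 : X y - (∫ t in (y + -r)..(y + r), X t) / (r - -r) = -(((∫ t in (y + -r)..(y + r), X t) - 2 * r * X y) / (2 * r)) := by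
    field_simp
    ring
  rw [h9, abs_neg, abs_div, abs_of_pos (by linarith : (0 : ℝ) < 2 * r), div_le_iff₀ (by linarith)]
  calc _ ≤ 2 * a * r ^ 2 * r := h6
    _ = a * r ^ 2 * (2 * r) := by ring

theorem ZLP (hBAS : BAS_stmt) (hDIF : DIF_stmt) (hBOX : BOX_stmt) (hBXA : BXA_stmt) (hRAT : RAT_stmt) : ZLP_stmt := by
  intro c
  refine ⟨2400, ?_⟩
  intro n hn f X p q hf hX hsupp hp hpq hq hd2
  have hs := ZLP_sn n hn
  generalize sn n = s at hs ⊢
  have h2pow : ∀ k : ℕ, (0 : ℝ) < 2 ^ k := fun k => by positivity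
  set a : ℝ := 1 / 2 ^ n with ha
  set r : ℝ := 1 / 2 ^ (s + c + 1) with hr
  have ha0 : 0 < a := by positivity
  have hr0 : 0 < r := by positivity
  have hn7 : (128 : ℝ) ≤ 2 ^ n := by
    calc (128 : ℝ) = 2 ^ 7 := by norm_num
      _ ≤ 2 ^ n := pow_le_pow_right₀ (by norm_num) (by omega)
  have ha1 : a ≤ 1 / 128 := one_div_le_one_div_of_le (by norm_num) hn7
  have hra : r ≤ a := by
    rw [hr, ha]
    apply one_div_le_one_div_of_le (h2pow n)
    exact pow_le_pow_right₀ (by norm_num) (by omega)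
  have hr1 : r ≤ 1 / 128 := hra.trans ha1
  obtain ⟨b1, b2, b3, b4, b5, b6⟩ := hBOX X p q a (-r) r hX hsupp hd2 (by linarith)
  set XL : ℝ → ℝ := av X (-r) r with hXL
  have hsub1 : ∀ x, x ∉ Set.Icc (p - r) (q + r) → X x = 0 ∧ XL x = 0 := by
    intro x hx
    refine ⟨hsupp x (fun h => hx ⟨by linarith [h.1], by linarith [h.2]⟩), b2 x ?_⟩
    rw [sub_neg_eq_add]
    exact hx
  have hXLd : ∀ x, |deriv XL x| ≤ 1 / 2 := by
    intro x
    have h1 := (hBAS XL (p - r) (q + r) a b1 (fun y hy => (hsub1 y hy).2) b5 (by linarith)).1 x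
    have h2 : a * (q + r - (p - r)) ≤ 1 / 128 * 1 := mul_le_mul ha1 (by linarith) (by linarith) (by norm_num)
    linarith
  obtain ⟨L, hL⟩ := hDIF XL b1 (fun x hx => (hsub1 x (fun h => hx ⟨by linarith [h.1], by linarith [h.2]⟩)).2) hXLd
  obtain ⟨Z, z1, z2, z3, z4, z5, -⟩ := hRAT f L X XL (p - r) (q + r) a hf hL hX b1 hsub1 (fun x => ⟨hd2 x, b5 x⟩)
    (by linarith) (by linarith) (by linarith) (by linarith)
  have hone : Rep (1 : DD) (fun _ => 0) := by
    intro x
    rw [ev_one, add_zero]
  have hd20 : ∀ x, d2 (fun _ : ℝ => (0 : ℝ)) x = 0 := by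
    intro x
    unfold d2
    simp
  obtain ⟨XF, f1, f2, f3, f4, -, f6⟩ := hRAT 1 L (fun _ => 0) XL (3 / 10) (6 / 10) a hone hL contDiff_const b1
    (fun x hx => ⟨rfl, (hsub1 x (fun h => hx ⟨by linarith [h.1], by linarith [h.2]⟩)).2⟩)
    (fun x => ⟨by rw [hd20, abs_zero]; exact ha0.le, b5 x⟩) (by norm_num) (by norm_num) (by norm_num) (by linarith)
  rw [one_mul] at f1
  have har : a * r = 1 / 2 ^ (n + s + c + 1) := by
    rw [ha, hr, div_mul_div_comm, one_mul, ← pow_add]
    congr 2
    ring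
  refine ⟨L, XF, Z, f1, ⟨f2, f3, ?_, ?_⟩, z1, z2, ?_, ?_, ?_, ?_⟩
  · intro x
    have h1 := f4 a (fun y => by rw [hd20, zero_sub, abs_neg]; exact b5 y) x
    calc |d2 XF x| ≤ 2 * a := h1
      _ = 2 / 2 ^ n := by rw [ha]; ring
  · intro x y
    have hLip : 2 * a / (r - -r) ≤ 2 ^ (s + c + 1) := by
      have h1 : 2 * a / (r - -r) = a * 2 ^ (s + c + 1) := by
        rw [hr]
        field_simp
        ring
      rw [h1]
      calc a * 2 ^ (s + c + 1) ≤ 1 * 2 ^ (s + c + 1) := mul_le_mul_of_nonneg_right (by linarith) (h2pow _).le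
        _ = 2 ^ (s + c + 1) := one_mul _
    have h1 := f6 (2 ^ (s + c + 1)) (h2pow _).le
      (fun u v => by rw [hd20, hd20, sub_zero, abs_zero]; exact mul_nonneg (h2pow _).le (abs_nonneg _))
      (fun u v => (b6 u v).trans (mul_le_mul_of_nonneg_right hLip (abs_nonneg _))) x y
    refine h1.trans (mul_le_mul_of_nonneg_right ?_ (abs_nonneg _))
    have h2 : (2 : ℝ) ^ (s + c + 4) = 8 * 2 ^ (s + c + 1) := by
      rw [show s + c + 4 = (s + c + 1) + 3 by ring, pow_add]
      norm_num
      ring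
    have h3 : (1 : ℝ) ≤ 2 ^ (s + c + 1) := one_le_pow₀ (by norm_num)
    rw [h2]
    linarith
  · intro x hx
    apply z3
    intro h
    apply hx
    exact ⟨by linarith [h.1], by linarith [h.2]⟩
  · intro x
    have h1 := z4 (2 * a) (fun y => by
      have h2 := abs_sub (d2 X y) (d2 XL y)
      linarith [hd2 y, b5 y]) x
    calc |d2 Z x| ≤ 2 * (2 * a) := h1
      _ = 4 / 2 ^ n := by rw [ha]; ring
  · intro x
    have h1 := z5 (a * r) (fun y => by
      rw [abs_sub_comm]
      exact (hBXA X p q a r 0 hX hsupp hd2 hr0).1 y) x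
    calc |deriv Z x| ≤ 2 * (a * r) := h1
      _ = 1 / 2 ^ (n + s + c) := by
        rw [har, pow_succ]
        field_simp
  · intro x
    have h1 := z1 x
    rw [ev_mul] at h1
    have h2 := hf (ev L⁻¹ x)
    have h3 := hL (ev L⁻¹ x)
    have h4 : ev L (ev L⁻¹ x) = x := ev_inv' L x
    rw [h4] at h3
    have h5 : Z x = X (ev L⁻¹ x) - XL (ev L⁻¹ x) := by linarith
    rw [h5]
    have h6 := ZLP_avg X a r hX hd2 hr0 (ev L⁻¹ x)
    refine h6.trans ?_
    have h7 : a * r ^ 2 = 1 / 2 ^ (n + 2 * s + 2 * c + 2) := by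
      rw [ha, hr, div_pow, one_pow, div_mul_div_comm, one_mul, ← pow_mul, ← pow_add]
      congr 2
      ring
    rw [h7]
    apply one_div_le_one_div_of_le (h2pow _)
    exact pow_le_pow_right₀ (by norm_num) (by omega)

end M5Z
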