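import Pool.Agent.helper18.DH.SpecM

/-!
# Project dh: (MP_5823cb_al), module EXI (helper74): existence of `Q` and `R`
-/

set_option autoImplicit false

open Filter Topology MeasureTheory
open scoped commutatorElement

namespace Pool.Agent.helper90.DH

open Pool.Agent.helper64.D2

theorem EXI (hDIF : DIF_stmt) (hBAS : BAS_stmt) : EXI_stmt := by
  intro q Y G ε d L hq hF hε hε4
  have hq0 : (0 : ℝ) < q := by exact_mod_cast hq
  -- the maps `Q`
  have hQ : ∀ i : ℕ, ∃ g : DD, Rep g (fun x => ∑ k ∈ Finset.Ico i q, Y k x) := by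
    intro i
    apply hDIF
    · apply ContDiff.sum
      intro k hk
      exact (hF k (Finset.mem_Ico.1 hk).2).1
    · intro x hx
      apply Finset.sum_eq_zero
      intro k hk
      apply (hF k (Finset.mem_Ico.1 hk).2).2.1
      intro h
      apply hx
      exact ⟨by linarith [h.1], by linarith [h.2]⟩
    · intro x
      have hdiff : ∀ k ∈ Finset.Ico i q, DifferentiableAt ℝ (Y k) x := fun k hk =>
        ((hF k (Finset.mem_Ico.1 hk).2).1.differentiable (by norm_num)) x
      rw [deriv_fun_sum hdiff]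
      have h1 : ∀ k ∈ Finset.Ico i q, |deriv (Y k) x| ≤ ε / q := by
        intro k hk
        obtain ⟨hc, hs, hb⟩ := hF k (Finset.mem_Ico.1 hk).2
        have h2 := (hBAS (Y k) (1 / 5) (4 / 5) (ε / q) hc hs (fun y => (hb y).1) (by norm_num)).1 x
        have h3 : 0 ≤ ε / q := by positivity
        nlinarith
      calc |∑ k ∈ Finset.Ico i q, deriv (Y k) x| ≤ ∑ k ∈ Finset.Ico i q, |deriv (Y k) x| := Finset.abs_sum_le_sum_abs _ _
        _ ≤ ∑ _k ∈ Finset.Ico i q, ε / q := Finset.sum_le_sum h1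
        _ = ((q - i : ℕ) : ℝ) * (ε / q) := by rw [Finset.sum_const, Nat.card_Ico, nsmul_eq_mul]
        _ ≤ (q : ℝ) * (ε / q) := by
            apply mul_le_mul_of_nonneg_right _ (by positivity)
            exact_mod_cast Nat.sub_le q i
        _ = ε := by field_simp
        _ ≤ 1 / 2 := by linarith
  choose Q hQ using hQ
  -- the maps `R`
  obtain ⟨r, hr0, hr⟩ : ∃ r : ℕ → DD, r 0 = 1 ∧ ∀ j, r (j + 1) =
      (G (q - (j + 1)))⁻¹ * (Q (q - (j + 1)) * (Q (q - (j + 1) + 1))⁻¹) * G (q - (j + 1)) * r j :=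
    ⟨fun j => Nat.rec (motive := fun _ => DD) 1 (fun j s => (G (q - (j + 1)))⁻¹ * (Q (q - (j + 1)) * (Q (q - (j + 1) + 1))⁻¹) * G (q - (j + 1)) * s) j,
      rfl, fun j => rfl⟩
  refine ⟨Q, fun i => r (q - i), fun i _ => hQ i, ?_⟩
  unfold IsR
  refine ⟨by simp only [Nat.sub_self]; exact hr0, ?_⟩
  intro i hi
  have h1 : q - i = (q - (i + 1)) + 1 := by omega
  have h2 : q - ((q - (i + 1)) + 1) = i := by omega
  have h3 := hr (q - (i + 1))
  rw [h2] at h3
  simp only [h1]
  exact h3

end Pool.Agent.helper90.DH
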